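import Pool.Agent.H801.Ecc.Core
import Pool.Agent.NPC.Dec

/-!
# Small set expansion reduces to budgeted clustering: the reduction
-/

namespace Pool.Agent.H801.Ecc

open Pool.Agent.NPC

/-- A polynomial-time function on bit strings, applied to a polynomial-time computable object. -/
theorem poly_app {α β : Type} [TEnc α] [TEnc β] {F : List Bool → List Bool} (hF : PolyTime F)
    {f : α → β} (hf : Poly f) : Poly (fun a => F (bits (f a))) := by
  have h0 : PC (bits : α → List Bool) (fun x : List Bool => x) (fun a => bits (f a)) := by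
    obtain ⟨c, p, h⟩ := hf
    exact ⟨c, p, h⟩
  have h1 : PC (fun x : List Bool => x) (fun x : List Bool => x) F :=
    H642R2.TMSim.polyTime_toPC hF
  have h2 : PC (fun x : List Bool => x) (bits : List Bool → List Bool) F :=
    PC.comp (g := fun x => x) (f := F) PC.rawIn h1
  exact PC.comp (g := F) (f := fun a => bits (f a)) h2 h0

/-- the type of the inputs of the expansion problem -/
abbrev GI : Type := ℕ × List (ℕ × ℕ) × ℕ

/-- the number of vertices, cut off -/
def rN (g : GI) : ℕ := min g.1 (2 * g.2.1.length)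

/-- the size of the sets, cut off -/
def rS (g : GI) : ℕ := min g.2.2 (2 * g.2.1.length)

/-- the degree -/
def rD (g : GI) : ℕ := (g.2.1.filter (fun e => decide (e.1 = 0 ∨ e.2 = 0))).length

/-- the number of edges wanted -/
def thr (a : ℕ) (g : GI) : ℕ :=
  ((4 * (a * a) - 1) * (rD g * rS g) + (8 * (a * a) - 1)) / (8 * (a * a))

/-- the reduction -/
def red (a : ℕ) (g : GI) : Inst :=
  inst (rN g) (a * rS g + 1) (g.2.1.length - thr a g) g.2.1

/-- the number of mistakes, computed -/
def mk (h : List (ℕ × List ℕ)) (L : List (List ℕ)) : ℕ :=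
  (h.filter (fun e => e.2.any (fun v => !(decide (e.1 ∈ L.getD v []))))).length

theorem mk_eq (I : Inst) (L : List (List ℕ)) : mistakes I (asg L) = mk (hedges I) L := by
  unfold mistakes mk
  rw [← List.countP_eq_length_filter]
  apply List.countP_congr
  intro e _
  simp [asg]

/-- the output of the algorithm, decoded -/
def outp (F : List Bool → List Bool) (a : ℕ) (g : GI) : List (List ℕ) :=
  match unbits (List (List ℕ)) (F (bits (red a g))) with
  | none => []
  | some L => L

/-- the decision -/
def test (F : List Bool → List Bool) (a : ℕ) (g : GI) : Bool :=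
  decide (g.1 ≤ 2 * g.2.1.length) && (decide (2 ≤ g.2.2) && (decide (g.2.2 ≤ g.1) &&
    (decide (thr a g ≤ g.2.1.length) &&
      decide (mk (hedges (red a g)) (outp F a g) ≤ a * g.2.2))))

/-! ### Polynomial time -/

theorem poly_getE : Poly (fun g : GI => g.2.1) := Poly.fst (Poly.snd Poly.id)

theorem upoly_m : UPoly (fun g : GI => g.2.1.length) := UPoly.length poly_getE

theorem upoly_rN : UPoly rN := by
  refine UPoly.of_le (Poly.min (Poly.fst Poly.id) (Poly.mul (NPC.Poly.const 2) upoly_m.toPoly))
    (UPoly.mul (UPoly.const 2) upoly_m) ?_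
  intro g
  exact min_le_right _ _

theorem upoly_rS : UPoly rS := by
  refine UPoly.of_le (Poly.min (Poly.snd (Poly.snd Poly.id))
    (Poly.mul (NPC.Poly.const 2) upoly_m.toPoly)) (UPoly.mul (UPoly.const 2) upoly_m) ?_
  intro g
  exact min_le_right _ _

theorem poly_rD : Poly rD := by
  refine (Poly.length (Poly.filter (p := fun (_ : GI) (e : ℕ × ℕ) =>
    decide (e.1 = 0) || decide (e.2 = 0)) poly_getE ?_)).congr fun g => ?_
  · exact Poly.or (Poly.decide_eq (Poly.fst (Poly.snd Poly.id)) (NPC.Poly.const 0))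
      (Poly.decide_eq (Poly.snd (Poly.snd Poly.id)) (NPC.Poly.const 0))
  · unfold rD
    congr 2
    funext e
    rw [Bool.decide_or]

theorem poly_thr (a : ℕ) : Poly (thr a) := by
  unfold thr
  exact Poly.div (Poly.add (Poly.mul (NPC.Poly.const _) (Poly.mul poly_rD upoly_rS.toPoly))
    (NPC.Poly.const _)) (NPC.Poly.const _)

theorem poly_red (a : ℕ) : Poly (red a) := by
  have hN := upoly_rN
  have hW : UPoly (fun g => a * rS g + 1) :=
    UPoly.add (UPoly.mul (UPoly.const a) upoly_rS) (UPoly.const 1)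
  have hm := upoly_m
  unfold red inst
  refine Poly.pair ?_ (Poly.pair (NPC.Poly.const 2) (Poly.pair ?_ ?_))
  · exact (UPoly.add (UPoly.add hm hN) (UPoly.mul hm hW)).toPoly
  · refine Poly.append ?_ ?_
    · unfold light
      refine NPC.Poly.map (F := fun (g : GI) (x : ℕ) => (((0 : ℕ), (g.2.1.length + x) ::
        (List.range g.2.1.length).filter (fun i => inc g.2.1 i x)) : ℕ × List ℕ)) hN.range ?_
      refine Poly.pair (NPC.Poly.const 0) (Poly.cons (Poly.add (hm.toPoly.comp (Poly.fst Poly.id))
        (Poly.snd Poly.id)) ?_)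
      refine Poly.filter (p := fun (p : GI × ℕ) (i : ℕ) => inc p.1.2.1 i p.2)
        (hm.range.comp (Poly.fst Poly.id)) ?_
      unfold inc
      have hget : Poly (fun q : (GI × ℕ) × ℕ => q.1.1.2.1.getD q.2 (0, 0)) :=
        Poly.getD (poly_getE.comp (Poly.fst (Poly.fst Poly.id))) (Poly.snd Poly.id)
          (NPC.Poly.const _)
      refine (Poly.or (Poly.decide_eq (Poly.fst hget) (Poly.snd (Poly.fst Poly.id)))
        (Poly.decide_eq (Poly.snd hget) (Poly.snd (Poly.fst Poly.id)))).congr fun q => ?_
      rw [Bool.decide_or]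
    · unfold heavy
      refine NPC.Poly.map (F := fun (g : GI) (t : ℕ) => (((1 : ℕ), [t / (a * rS g + 1),
        g.2.1.length + rN g + t]) : ℕ × List ℕ)) (UPoly.mul hm hW).range ?_
      refine Poly.pair (NPC.Poly.const 1) (Poly.cons (Poly.div (Poly.snd Poly.id)
        (hW.toPoly.comp (Poly.fst Poly.id))) (Poly.cons (Poly.add (Poly.add
          (hm.toPoly.comp (Poly.fst Poly.id)) (hN.toPoly.comp (Poly.fst Poly.id)))
          (Poly.snd Poly.id)) (NPC.Poly.const [])))
  · exact Poly.sub hm.toPoly (poly_thr a)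

theorem poly_mk {α : Type} [TEnc α] {h : α → List (ℕ × List ℕ)} {L : α → List (List ℕ)}
    (hh : Poly h) (hL : Poly L) : Poly (fun x => mk (h x) (L x)) := by
  unfold mk
  refine Poly.length (Poly.filter (p := fun (x : α) (e : ℕ × List ℕ) =>
    e.2.any (fun v => !(decide (e.1 ∈ (L x).getD v [])))) hh ?_)
  refine Poly.any (p := fun (y : α × ℕ × List ℕ) (v : ℕ) =>
    !(decide (y.2.1 ∈ (L y.1).getD v []))) (Poly.snd (Poly.snd Poly.id)) ?_
  refine Poly.not (Poly.decide_mem (Poly.fst (Poly.snd (Poly.fst Poly.id))) ?_)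
  exact Poly.getD (hL.comp (Poly.fst (Poly.fst Poly.id))) (Poly.snd Poly.id) (NPC.Poly.const [])

theorem poly_test {F : List Bool → List Bool} (hF : PolyTime F) (a : ℕ) : Poly (test F a) := by
  have hm := upoly_m.toPoly
  have hs : Poly (fun g : GI => g.2.2) := Poly.snd (Poly.snd Poly.id)
  unfold test
  refine Poly.and (Poly.decide_le (Poly.fst Poly.id) (Poly.mul (NPC.Poly.const 2) hm)) ?_
  refine Poly.and (Poly.decide_le (NPC.Poly.const 2) hs) ?_
  refine Poly.and (Poly.decide_le hs (Poly.fst Poly.id)) ?_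
  refine Poly.and (Poly.decide_le (poly_thr a) hm) ?_
  refine Poly.decide_le (poly_mk ?_ ?_) (Poly.mul (NPC.Poly.const a) hs)
  · exact Poly.fst (Poly.snd (Poly.snd (poly_red a)))
  · unfold outp
    refine (Poly.optCases (o := fun g => unbits (List (List ℕ)) (F (bits (red a g))))
      (g := fun _ => []) (h := fun _ L => L) (poly_unbits.comp (poly_app hF (poly_red a)))
      (NPC.Poly.const []) (Poly.snd Poly.id)).congr fun g => ?_
    cases unbits (List (List ℕ)) (F (bits (red a g))) <;> rfl

/-! ### Correctness -/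

theorem regular_count {N d : ℕ} {E : List (ℕ × ℕ)} (h : Regular N E d) :
    N * d = 2 * E.length := by
  have h1 := sum_deg E (Finset.range N) (fun e he => (h.1 e he).2.2)
  have h2 : ∑ x ∈ Finset.range N, E.countP (fun e => decide (e.1 = x ∨ e.2 = x)) = N * d := by
    rw [Finset.sum_congr rfl (fun x hx => h.2 x (Finset.mem_range.1 hx))]
    simp
  have h3 : inner E (Finset.range N) = E.length := by
    unfold inner
    rw [List.countP_eq_length]
    intro e he
    simp [(h.1 e he).1, (h.1 e he).2.1]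
  have h4 : cut E (Finset.range N) = 0 := by
    unfold cut
    rw [List.countP_eq_zero]
    intro e he
    simp [(h.1 e he).1, (h.1 e he).2.1]
  omega

theorem regular_inner {N d : ℕ} {E : List (ℕ × ℕ)} (h : Regular N E d) {S : Finset ℕ}
    (hS : S ⊆ Finset.range N) : 2 * inner E S + cut E S = S.card * d := by
  rw [← sum_deg E S (fun e he => (h.1 e he).2.2),
    Finset.sum_congr rfl (fun x hx => h.2 x (Finset.mem_range.1 (hS hx)))]
  simp

theorem inner_le (E : List (ℕ × ℕ)) (S : Finset ℕ) : inner E S ≤ E.length :=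
  List.countP_le_length

/-- The main arithmetic fact: in a graph all of whose sets of `s` vertices expand, no set of at
most `a s` vertices has many edges. -/
theorem few_edges {N d s a : ℕ} {E : List (ℕ × ℕ)} (ha : 1 ≤ a) (hs : 2 ≤ s) (hsN : s ≤ N)
    (h : Regular N E d)
    (hno : ∀ S ⊆ Finset.range N, S.card = s → 8 * (a * a) * inner E S ≤ d * s)
    {T : Finset ℕ} (hT : T ⊆ Finset.range N) (hTc : T.card ≤ a * s) :
    4 * inner E T ≤ d * s := by
  have haa : 1 ≤ a * a := Nat.one_le_iff_ne_zero.2 (by positivity)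
  rcases le_total T.card s with hle | hle
  · obtain ⟨S, hTS, hSN, hSc⟩ := Finset.exists_subsuperset_card_eq hT hle (by simpa using hsN)
    have h1 := hno S hSN hSc
    have h2 := inner_mono (E := E) hTS
    nlinarith
  · obtain ⟨k, hk⟩ := Nat.exists_eq_add_of_le hle
    obtain ⟨R, hRT, hRc, hR⟩ := exists_dense E (fun e he => (h.1 e he).2.2) hs k T hk
    have h1 := hno R (hRT.trans hT) hRc
    rw [← hk] at hR
    obtain ⟨u, hu⟩ : ∃ u, s = u + 2 := ⟨s - 2, by omega⟩
    have h2 : T.card * (T.card - 1) ≤ (a * s) * (2 * a * (s - 1)) := by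
      apply Nat.mul_le_mul hTc
      have h3 : T.card - 1 ≤ a * s - 1 := by omega
      refine h3.trans ?_
      rw [hu, show u + 2 - 1 = u + 1 from rfl]
      have : a * (u + 2) - 1 ≤ a * (u + 2) := Nat.sub_le _ _
      nlinarith
    have h4 : 8 * (a * a) * (inner E T * (s * (s - 1))) ≤
        2 * (a * a) * (d * s) * (s * (s - 1)) := by
      calc 8 * (a * a) * (inner E T * (s * (s - 1)))
          ≤ 8 * (a * a) * (inner E R * (T.card * (T.card - 1))) := Nat.mul_le_mul_left _ hR
        _ = (8 * (a * a) * inner E R) * (T.card * (T.card - 1)) := by ring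
        _ ≤ (d * s) * ((a * s) * (2 * a * (s - 1))) := Nat.mul_le_mul h1 h2
        _ = 2 * (a * a) * (d * s) * (s * (s - 1)) := by ring
    have h5 : 0 < s * (s - 1) := Nat.mul_pos (by omega) (by omega)
    have h6 : 8 * (a * a) * inner E T ≤ 2 * (a * a) * (d * s) := by
      refine Nat.le_of_mul_le_mul_right ?_ h5
      calc 8 * (a * a) * inner E T * (s * (s - 1)) = 8 * (a * a) * (inner E T * (s * (s - 1))) :=
            by ring
        _ ≤ _ := h4
    have h7 : (2 * (a * a)) * (4 * inner E T) ≤ (2 * (a * a)) * (d * s) := by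
      calc (2 * (a * a)) * (4 * inner E T) = 8 * (a * a) * inner E T := by ring
        _ ≤ _ := h6
    exact Nat.le_of_mul_le_mul_left h7 (by omega)

theorem red_eq {a N d s : ℕ} {E : List (ℕ × ℕ)} (h : Regular N E d) (hd : 1 ≤ d) (hN : 0 < N)
    (hs : s ≤ N) : N ≤ 2 * E.length ∧ rN (N, E, s) = N ∧ rS (N, E, s) = s ∧ rD (N, E, s) = d ∧
      red a (N, E, s) = inst N (a * s + 1) (E.length - thr a (N, E, s)) E := by
  have h1 := regular_count h
  have h2 : N ≤ 2 * E.length := by
    rw [← h1]
    exact Nat.le_mul_of_pos_right _ hd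
  have h3 : rN (N, E, s) = N := min_eq_left h2
  have h4 : rS (N, E, s) = s := min_eq_left (hs.trans h2)
  have h5 : rD (N, E, s) = d := by
    rw [← h.2 0 hN, List.countP_eq_length_filter]
    rfl
  refine ⟨h2, h3, h4, h5, ?_⟩
  unfold red
  rw [h3, h4]

theorem thr_le_iff {a : ℕ} (ha : 1 ≤ a) (g : GI) (k : ℕ) :
    thr a g ≤ k ↔ (4 * (a * a) - 1) * (rD g * rS g) ≤ 8 * (a * a) * k := by
  have haa : 1 ≤ a * a := Nat.one_le_iff_ne_zero.2 (by positivity)
  unfold thr
  rw [← Nat.lt_succ_iff, Nat.div_lt_iff_lt_mul (by omega)]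
  have e1 : (k + 1) * (8 * (a * a)) = 8 * (a * a) * k + 8 * (a * a) := by ring
  rw [Nat.succ_eq_add_one, e1]
  omega

/-- A gap version of the decision procedure. -/
theorem test_correct {Feas : Inst → (ℕ → Finset ℕ) → Prop} (hthin : ∀ I S, Feas I S → Thin I S)
    (hasg : ∀ {N W b : ℕ} {E : List (ℕ × ℕ)} {S : Finset ℕ}, E.length ≤ inner E S + b →
      Feas (inst N W b E) (asgOf N E S))
    {F : List Bool → List Bool} {a : ℕ} (ha : 1 ≤ a) (hF : Approx2 Feas a F)
    {N d s : ℕ} {E : List (ℕ × ℕ)} (hd : 1 ≤ d) (hs : 1 ≤ s) (hN : 0 < N) (h : Regular N E d) :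
    ((∃ S ⊆ Finset.range N, S.card = s ∧ 4 * (a * a) * cut E S ≤ d * s) →
      test F a (N, E, s) = true) ∧
    ((∀ S ⊆ Finset.range N, S.card = s → (4 * (a * a) - 1) * (d * s) ≤ 4 * (a * a) * cut E S) →
      test F a (N, E, s) = false) := by
  have haa : 1 ≤ a * a := Nat.one_le_iff_ne_zero.2 (by positivity)
  have hds : 1 ≤ d * s := Nat.one_le_iff_ne_zero.2 (by positivity)
  obtain ⟨q, hq⟩ : ∃ q, 4 * (a * a) = q + 4 := ⟨4 * (a * a) - 4, by omega⟩
  have hq8 : 8 * (a * a) = 2 * (q + 4) := by omega
  constructor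
  · rintro ⟨S, hSN, hSc, hcut⟩
    have hsN : s ≤ N := by
      have := Finset.card_le_card hSN
      rw [Finset.card_range] at this
      omega
    obtain ⟨e1, e2, e3, e4, e5⟩ := red_eq (a := a) h hd hN hsN
    have h1 := regular_inner h hSN
    rw [hSc] at h1
    have hs2 : 2 ≤ s := by
      by_contra hc
      have hs1 : s = 1 := by omega
      subst hs1
      obtain ⟨x, hx⟩ := Finset.card_eq_one.1 hSc
      have h2 : inner E S = 0 := by
        unfold inner
        rw [List.countP_eq_zero]
        intro e he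
        rw [hx]
        simp only [Finset.mem_singleton, decide_eq_true_eq, not_and]
        intro h3 h4
        exact (h.1 e he).2.2 (h3.trans h4.symm)
      rw [hq] at hcut
      nlinarith
    have hthr : thr a (N, E, s) ≤ inner E S := by
      rw [thr_le_iff ha, e3, e4]
      rw [hq8, hq]
      rw [hq] at hcut
      have e6 : q + 4 - 1 = q + 3 := rfl
      rw [e6]
      nlinarith
    have hlen : thr a (N, E, s) ≤ E.length := hthr.trans (inner_le E S)
    have hfeas : Feas (red a (N, E, s)) (asgOf N E S) := by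
      rw [e5]
      exact hasg (by omega)
    obtain ⟨L, hL1, _, hL3⟩ := hF (red a (N, E, s)) (by
      rw [e5]
      exact inst_wf _ _ _ _ (fun e he => ⟨(h.1 e he).1, (h.1 e he).2.1⟩) (by omega))
      (by rw [e5]; rfl)
    have hL4 := hL3 _ hfeas
    have hL5 : mistakes (red a (N, E, s)) (asgOf N E S) ≤ s := by
      rw [e5]
      exact (asgOf_mistakes _ _ _ _ _ (by omega)).trans hSc.le
    have hL6 : mistakes (red a (N, E, s)) (asg L) ≤ a * s := by
      have : (mistakes (red a (N, E, s)) (asg L) : ℝ) ≤ (a * s : ℕ) := by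
        refine hL4.trans ?_
        push_cast
        exact mul_le_mul_of_nonneg_left (by exact_mod_cast hL5) (Nat.cast_nonneg _)
      exact_mod_cast this
    have hout : outp F a (N, E, s) = L := by
      unfold outp
      rw [hL1, unbits_bits]
    unfold test
    rw [hout, ← mk_eq]
    simp only [Bool.and_eq_true, decide_eq_true_eq]
    exact ⟨e1, hs2, hsN, hlen, hL6⟩
  · intro hno
    by_contra hc
    rw [Bool.not_eq_false] at hc
    unfold test at hc
    simp only [Bool.and_eq_true, decide_eq_true_eq] at hc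
    obtain ⟨_, hs2, hsN, hlen, hmk⟩ := hc
    obtain ⟨e1, e2, e3, e4, e5⟩ := red_eq (a := a) h hd hN hsN
    obtain ⟨L, hL1, hL2, _⟩ := hF (red a (N, E, s)) (by
      rw [e5]
      exact inst_wf _ _ _ _ (fun e he => ⟨(h.1 e he).1, (h.1 e he).2.1⟩) (by omega))
      (by rw [e5]; rfl)
    have hout : outp F a (N, E, s) = L := by
      unfold outp
      rw [hL1, unbits_bits]
    rw [hout, ← mk_eq] at hmk
    have hthin := hthin _ _ hL2
    rw [e5] at hthin hmk
    obtain ⟨T, hTN, hTc, hTi⟩ := exists_set
      (fun e he => ⟨(h.1 e he).1, (h.1 e he).2.1⟩) hthin (by omega)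
    have hfew := few_edges ha hs2 hsN h (by
      intro S hSN hSc
      have h1 := hno S hSN hSc
      have h2 := regular_inner h hSN
      rw [hSc] at h2
      rw [hq8]
      rw [hq] at h1
      have e6 : q + 4 - 1 = q + 3 := rfl
      rw [e6] at h1
      nlinarith) hTN (hTc.trans hmk)
    have h3 : thr a (N, E, s) ≤ inner E T := by omega
    rw [thr_le_iff ha, e3, e4, hq8, hq] at h3
    have e6 : q + 4 - 1 = q + 3 := rfl
    rw [e6] at h3
    have h4 : (q + 3) * (d * s) ≤ (q + 4) * (2 * inner E T) := by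
      refine h3.trans (le_of_eq ?_)
      ring
    have h5 : (q + 4) * (2 * (2 * inner E T)) ≤ (q + 4) * (d * s) :=
      Nat.mul_le_mul_left _ (by omega)
    have h6 : 2 * ((q + 3) * (d * s)) ≤ (q + 4) * (d * s) := by
      calc 2 * ((q + 3) * (d * s)) ≤ 2 * ((q + 4) * (2 * inner E T)) := Nat.mul_le_mul_left _ h4
        _ = (q + 4) * (2 * (2 * inner E T)) := by ring
        _ ≤ _ := h5
    nlinarith

/-- The reduction: an approximation algorithm for budgeted clustering solves the gap version of
small set expansion. -/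
theorem sse_of_approx {Feas : Inst → (ℕ → Finset ℕ) → Prop}
    (hthin : ∀ I S, Feas I S → Thin I S)
    (hasg : ∀ {N W b : ℕ} {E : List (ℕ × ℕ)} {S : Finset ℕ}, E.length ≤ inner E S + b →
      Feas (inst N W b E) (asgOf N E S))
    {F : List Bool → List Bool} (hFP : PolyTime F) {α : ℝ} (hF : Approx2 Feas α F) :
    ∃ η : ℝ, 0 < η ∧ ∀ δ : ℝ, SSEInP η δ := by
  obtain ⟨a, ha, haα⟩ : ∃ a : ℕ, 1 ≤ a ∧ α ≤ a := by
    obtain ⟨n, hn⟩ := exists_nat_ge α
    exact ⟨n + 1, by omega, hn.trans (by push_cast; linarith)⟩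
  have hFa : Approx2 Feas a F := by
    intro I hI hI2
    obtain ⟨L, h1, h2, h3⟩ := hF I hI hI2
    refine ⟨L, h1, h2, fun S hS => (h3 S hS).trans ?_⟩
    exact mul_le_mul_of_nonneg_right haα (Nat.cast_nonneg _)
  have haR : (1 : ℝ) ≤ a := by exact_mod_cast ha
  have haa : (0 : ℝ) < 4 * (a * a) := by positivity
  have haaN : 1 ≤ a * a := Nat.one_le_iff_ne_zero.2 (by positivity)
  refine ⟨1 / (4 * (a * a)), by positivity, fun δ => ⟨fun x => [match unbits GI x with
    | none => false
    | some g => test F a g], ?_, ?_⟩⟩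
  · refine polyTime_of_poly ((Poly.optCases (o := fun x => unbits GI x) (g := fun _ => false)
      (h := fun _ g => test F a g) poly_unbits
      (NPC.Poly.const _) ((poly_test hFP a).comp (Poly.snd Poly.id))).congr fun x => ?_)
    cases unbits GI x <;> rfl
  · intro N E d s hd hs hreg hδ
    have hN : 0 < N := by
      rcases Nat.eq_zero_or_pos N with h0 | h0
      · rw [h0] at hδ
        have : (s : ℝ) = 0 := by rw [hδ]; simp
        have : s = 0 := by exact_mod_cast this
        omega
      · exact h0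
    have key := test_correct hthin hasg ha hFa hd hs hN hreg
    have hgi : unbits GI (bits (N, E, s)) = some (N, E, s) := unbits_bits _
    constructor
    · rintro ⟨S, hSN, hSc, hcut⟩
      have h1 : 4 * (a * a) * cut E S ≤ d * s := by
        have : (4 * (a * a) * cut E S : ℝ) ≤ d * s := by
          calc (4 * (a * a) * cut E S : ℝ) ≤ 4 * (a * a) * (1 / (4 * (a * a)) * (d * s)) :=
                mul_le_mul_of_nonneg_left hcut haa.le
            _ = d * s := by
                field_simp
        exact_mod_cast this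
      have h2 := key.1 ⟨S, hSN, hSc, h1⟩
      simp only [hgi, h2]
    · intro hno
      have h2 := key.2 (fun S hSN hSc => by
        have h1 := hno S hSN hSc
        have h3 : ((4 * (a * a) - 1) * (d * s) : ℝ) ≤ 4 * (a * a) * cut E S := by
          calc ((4 * (a * a) - 1) * (d * s) : ℝ) =
                4 * (a * a) * ((1 - 1 / (4 * (a * a))) * (d * s)) := by
                field_simp
            _ ≤ 4 * (a * a) * cut E S := mul_le_mul_of_nonneg_left h1 haa.le
        have h4 : (((4 * (a * a) - 1) * (d * s) : ℕ) : ℝ) ≤ ((4 * (a * a) * cut E S : ℕ) : ℝ) := by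
          push_cast [Nat.cast_sub (show 1 ≤ 4 * (a * a) by omega)]
          exact h3
        exact_mod_cast h4)
      simp only [hgi, h2]

end Pool.Agent.H801.Ecc
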