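import Pool.Agent.H801.Ecc.Defs

/-!
# Small set expansion reduces to budgeted clustering: combinatorics
-/

namespace Pool.Agent.H801.Ecc

open Pool.Agent.NPC

/-- The number of edges inside a vertex set. -/
def inner (E : List (ℕ × ℕ)) (S : Finset ℕ) : ℕ :=
  E.countP (fun e => decide (e.1 ∈ S ∧ e.2 ∈ S))

theorem sum_deg (E : List (ℕ × ℕ)) (S : Finset ℕ) (h : ∀ e ∈ E, e.1 ≠ e.2) :
    ∑ x ∈ S, E.countP (fun e => decide (e.1 = x ∨ e.2 = x)) = 2 * inner E S + cut E S := by
  induction E with
  | nil => simp [inner, cut]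
  | cons e E ih =>
    have h' := ih (fun f hf => h f (List.mem_cons_of_mem _ hf))
    have he := h e List.mem_cons_self
    simp only [List.countP_cons, Finset.sum_add_distrib, inner, cut] at *
    rw [h']
    have key : ∑ x ∈ S, (if decide (e.1 = x ∨ e.2 = x) = true then 1 else 0) =
        (if e.1 ∈ S then 1 else 0) + (if e.2 ∈ S then 1 else 0) := by
      have h1 : ∀ x ∈ S, (if decide (e.1 = x ∨ e.2 = x) = true then 1 else 0) =
          (if e.1 = x then 1 else 0) + (if e.2 = x then 1 else 0) := by
        intro x _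
        by_cases h1 : e.1 = x <;> by_cases h2 : e.2 = x <;> simp [h1, h2]
        exact absurd (h1.trans h2.symm) he
      rw [Finset.sum_congr rfl h1, Finset.sum_add_distrib, Finset.sum_ite_eq,
        Finset.sum_ite_eq]
    rw [key]
    by_cases h1 : e.1 ∈ S <;> by_cases h2 : e.2 ∈ S <;> simp [h1, h2] <;> omega

theorem sum_erase (E : List (ℕ × ℕ)) (T : Finset ℕ) (h : ∀ e ∈ E, e.1 ≠ e.2) :
    ∑ v ∈ T, inner E (T.erase v) + 2 * inner E T = T.card * inner E T := by
  induction E with
  | nil => simp [inner]
  | cons e E ih =>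
    have h' := ih (fun f hf => h f (List.mem_cons_of_mem _ hf))
    have he := h e List.mem_cons_self
    simp only [List.countP_cons, Finset.sum_add_distrib, inner] at *
    have key : ∑ v ∈ T, (if decide (e.1 ∈ T.erase v ∧ e.2 ∈ T.erase v) = true then 1 else 0) +
        2 * (if decide (e.1 ∈ T ∧ e.2 ∈ T) = true then 1 else 0) =
        T.card * (if decide (e.1 ∈ T ∧ e.2 ∈ T) = true then 1 else 0) := by
      by_cases hb : e.1 ∈ T ∧ e.2 ∈ T
      · have h1 : ∀ v ∈ T, (if decide (e.1 ∈ T.erase v ∧ e.2 ∈ T.erase v) = true then 1 else 0) =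
            if v ∈ (T.erase e.1).erase e.2 then 1 else 0 := by
          intro v hv
          simp only [Finset.mem_erase, decide_eq_true_eq]
          by_cases h1 : e.1 = v
          · simp [h1]
          · by_cases h2 : e.2 = v
            · simp [h2]
            · have h3 : v ≠ e.2 := fun h => h2 h.symm
              have h4 : v ≠ e.1 := fun h => h1 h.symm
              simp [h1, h2, h3, h4, hb.1, hb.2, hv]
        rw [Finset.sum_congr rfl h1, Finset.sum_ite_mem]
        have h2 : T ∩ (T.erase e.1).erase e.2 = (T.erase e.1).erase e.2 :=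
          Finset.inter_eq_right.2 ((Finset.erase_subset _ _).trans (Finset.erase_subset _ _))
        have h3 : e.2 ∈ T.erase e.1 := Finset.mem_erase.2 ⟨he.symm, hb.2⟩
        have h4 : ((T.erase e.1).erase e.2).card + 1 + 1 = T.card := by
          rw [Finset.card_erase_add_one h3, Finset.card_erase_add_one hb.1]
        rw [h2]
        simp only [Finset.sum_const, smul_eq_mul, mul_one, hb, and_self, decide_true, if_true]
        omega
      · have h1 : ∀ v ∈ T, (if decide (e.1 ∈ T.erase v ∧ e.2 ∈ T.erase v) = true then 1 else 0) =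
            0 := by
          intro v hv
          rw [if_neg]
          simp only [Finset.mem_erase, decide_eq_true_eq]
          rintro ⟨⟨_, h1⟩, _, h2⟩
          exact hb ⟨h1, h2⟩
        rw [Finset.sum_congr rfl h1]
        simp [hb]
    rw [mul_add, mul_add, ← key, ← h']
    ring

theorem inner_mono {E : List (ℕ × ℕ)} {S T : Finset ℕ} (h : S ⊆ T) : inner E S ≤ inner E T := by
  unfold inner
  apply List.countP_mono_left
  intro e _ he
  simp only [decide_eq_true_eq] at he ⊢
  exact ⟨h he.1, h he.2⟩

/-- A set of `τ ≥ s` vertices has a subset of `s` vertices that is not much sparser. -/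
theorem exists_dense (E : List (ℕ × ℕ)) (h : ∀ e ∈ E, e.1 ≠ e.2) {s : ℕ} (hs : 2 ≤ s) :
    ∀ (k : ℕ) (T : Finset ℕ), T.card = s + k → ∃ R ⊆ T, R.card = s ∧
      inner E T * (s * (s - 1)) ≤ inner E R * ((s + k) * (s + k - 1)) := by
  intro k
  induction k with
  | zero => intro T hT; exact ⟨T, le_rfl, hT, le_rfl⟩
  | succ k ih =>
    intro T hT
    have h1 := sum_erase E T h
    have hne : T.Nonempty := by
      rw [← Finset.card_pos]; omega
    obtain ⟨v, hv, hmax⟩ := Finset.exists_max_image T (fun v => inner E (T.erase v)) hne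
    have h2 : ∑ u ∈ T, inner E (T.erase u) ≤ T.card * inner E (T.erase v) := by
      refine (Finset.sum_le_sum hmax).trans ?_
      simp
    obtain ⟨R, hR, hRc, hRi⟩ := ih (T.erase v) (by
      have := Finset.card_erase_add_one hv
      omega)
    refine ⟨R, hR.trans (Finset.erase_subset _ _), hRc, ?_⟩
    rw [hT] at h1 h2
    have h3 : (s + k - 1) * inner E T ≤ (s + (k + 1)) * inner E (T.erase v) := by
      have e1 : (s + (k + 1)) * inner E T = (s + k - 1) * inner E T + 2 * inner E T := by
        rw [← add_mul]; congr 1; omega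
      rw [e1] at h1
      omega
    obtain ⟨t, ht⟩ : ∃ t, s + k - 1 = t + 1 := ⟨s + k - 2, by omega⟩
    have ht' : s + k = t + 2 := by omega
    have ht'' : s + (k + 1) = t + 3 := by omega
    have ht3 : s + (k + 1) - 1 = t + 2 := by omega
    rw [ht] at h3 hRi
    rw [ht'] at hRi
    rw [ht''] at h3
    rw [ht'', show t + 3 - 1 = t + 2 from rfl]
    have h4 : (t + 1) * (inner E T * (s * (s - 1))) ≤
        (t + 1) * (inner E R * ((t + 3) * (t + 2))) := by
      calc (t + 1) * (inner E T * (s * (s - 1))) = ((t + 1) * inner E T) * (s * (s - 1)) := by ring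
        _ ≤ ((t + 3) * inner E (T.erase v)) * (s * (s - 1)) := Nat.mul_le_mul_right _ h3
        _ = (t + 3) * (inner E (T.erase v) * (s * (s - 1))) := by ring
        _ ≤ (t + 3) * (inner E R * ((t + 2) * (t + 1))) := Nat.mul_le_mul_left _ hRi
        _ = (t + 1) * (inner E R * ((t + 3) * (t + 2))) := by ring
    exact Nat.le_of_mul_le_mul_left h4 (Nat.succ_pos t)

/-! ### The instance -/

/-- is the vertex `x` an end of the `i`-th edge? -/
def inc (E : List (ℕ × ℕ)) (i x : ℕ) : Bool :=
  decide ((E.getD i (0, 0)).1 = x ∨ (E.getD i (0, 0)).2 = x)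

/-- the hyperedge of a vertex -/
def light (N : ℕ) (E : List (ℕ × ℕ)) : List (ℕ × List ℕ) :=
  (List.range N).map (fun x =>
    (0, (E.length + x) :: (List.range E.length).filter (fun i => inc E i x)))

/-- the hyperedges forcing colour `1` -/
def heavy (N W : ℕ) (E : List (ℕ × ℕ)) : List (ℕ × List ℕ) :=
  (List.range (E.length * W)).map (fun t => (1, [t / W, E.length + N + t]))

/-- the instance -/
def inst (N W b : ℕ) (E : List (ℕ × ℕ)) : Inst :=
  (E.length + N + E.length * W, 2, light N E ++ heavy N W E, b)

theorem inst_wf (N W b : ℕ) (E : List (ℕ × ℕ)) (hE : ∀ e ∈ E, e.1 < N ∧ e.2 < N)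
    (hW : 0 < W) : WF (inst N W b E) := by
  refine ⟨by simp [inst, colours], ?_, ?_, ?_⟩
  · intro e he
    simp only [inst, hedges, colours, nodes, List.mem_append, light, heavy, List.mem_map,
      List.mem_range] at he ⊢
    rcases he with ⟨x, hx, rfl⟩ | ⟨t, ht, rfl⟩
    · refine ⟨by simp, by simp, ?_, ?_⟩
      · simp only [List.nodup_cons, List.mem_filter, List.mem_range]
        exact ⟨fun h => by omega, (List.nodup_range).filter _⟩
      · intro v hv
        simp only [List.mem_cons, List.mem_filter, List.mem_range] at hv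
        omega
    · have h1 : t / W < E.length := (Nat.div_lt_iff_lt_mul hW).2 ht
      refine ⟨by simp, by simp, ?_, ?_⟩
      · simp only [List.nodup_cons, List.mem_singleton, List.not_mem_nil, not_false_eq_true,
          List.nodup_nil, and_true]
        omega
      · intro v hv
        simp only [List.mem_cons, List.not_mem_nil, or_false] at hv
        omega
  · simp only [inst, hedges]
    rw [List.pairwise_append]
    refine ⟨?_, ?_, ?_⟩
    · rw [light, List.pairwise_map]
      refine (List.nodup_range (n := N)).imp_of_mem ?_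
      intro x y hx hy hxy h
      have h1 : E.length + x ∈ ((E.length + x) ::
          (List.range E.length).filter (fun i => inc E i x)).toFinset := by simp
      rw [h] at h1
      simp only [List.mem_toFinset, List.mem_cons, List.mem_filter, List.mem_range] at h1
      omega
    · rw [heavy, List.pairwise_map]
      refine (List.nodup_range (n := E.length * W)).imp_of_mem ?_
      intro x y hx hy hxy h
      have h1 : E.length + N + x ∈ [x / W, E.length + N + x].toFinset := by simp
      rw [h] at h1
      simp only [List.mem_toFinset, List.mem_cons, List.not_mem_nil, or_false] at h1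
      rw [List.mem_range] at hy
      have h2 : y / W < E.length := (Nat.div_lt_iff_lt_mul hW).2 hy
      omega
    · intro e he f hf h
      simp only [light, heavy, List.mem_map, List.mem_range] at he hf
      obtain ⟨x, hx, rfl⟩ := he
      obtain ⟨t, ht, rfl⟩ := hf
      have h1 : E.length + N + t ∈ [t / W, E.length + N + t].toFinset := by simp
      rw [← h] at h1
      simp only [List.mem_toFinset, List.mem_cons, List.mem_filter, List.mem_range] at h1
      omega
  · intro v hv
    simp only [inst, nodes] at hv
    simp only [inst, hedges, List.mem_append, light, heavy, List.mem_map, List.mem_range]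
    by_cases h1 : v < E.length
    · have hmem : E.getD v (0, 0) ∈ E := by
        rw [List.getD_eq_getElem _ _ h1]
        exact List.getElem_mem _
      refine ⟨_, Or.inl ⟨(E.getD v (0, 0)).1, (hE _ hmem).1, rfl⟩, ?_⟩
      simp only [List.mem_cons, List.mem_filter, List.mem_range]
      exact Or.inr ⟨h1, by simp [inc]⟩
    · by_cases h2 : v < E.length + N
      · refine ⟨_, Or.inl ⟨v - E.length, by omega, rfl⟩, ?_⟩
        simp only [List.mem_cons]
        left
        omega
      · refine ⟨_, Or.inr ⟨v - (E.length + N), by omega, rfl⟩, ?_⟩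
        simp only [List.mem_cons]
        right
        left
        omega

theorem countP_range (n : ℕ) (p : ℕ → Prop) [DecidablePred p] :
    (List.range n).countP (fun x => decide (p x)) = ((Finset.range n).filter p).card := by
  induction n with
  | zero => simp
  | succ n ih =>
    rw [List.range_succ, List.countP_append, ih, Finset.range_add_one, Finset.filter_insert]
    by_cases h : p n
    · rw [if_pos h, Finset.card_insert_of_notMem (by simp)]
      simp [h]
    · rw [if_neg h]
      simp [h]

theorem mistakes_inst (N W b : ℕ) (E : List (ℕ × ℕ)) (S : ℕ → Finset ℕ) :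
    mistakes (inst N W b E) S =
      ((Finset.range N).filter (fun x => 0 ∉ S (E.length + x) ∨
        ∃ i < E.length, inc E i x = true ∧ 0 ∉ S i)).card +
      ((Finset.range (E.length * W)).filter (fun t => 1 ∉ S (t / W) ∨
        1 ∉ S (E.length + N + t))).card := by
  unfold mistakes
  simp only [inst, hedges, List.countP_append, light, heavy, List.countP_map]
  rw [← countP_range, ← countP_range]
  congr 1
  · apply List.countP_congr
    intro x _
    simp only [Function.comp, decide_eq_true_eq, List.mem_cons, List.mem_filter, List.mem_range]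
    constructor
    · rintro ⟨v, rfl | ⟨h1, h2⟩, hv⟩
      · exact Or.inl hv
      · exact Or.inr ⟨v, h1, h2, hv⟩
    · rintro (h | ⟨i, h1, h2, h3⟩)
      · exact ⟨_, Or.inl rfl, h⟩
      · exact ⟨i, Or.inr ⟨h1, h2⟩, h3⟩
  · apply List.countP_congr
    intro x _
    simp only [Function.comp, decide_eq_true_eq, List.mem_cons, List.not_mem_nil, or_false]
    constructor
    · rintro ⟨v, rfl | rfl, hv⟩
      · exact Or.inl hv
      · exact Or.inr hv
    · rintro (h | h)
      · exact ⟨_, Or.inl rfl, h⟩
      · exact ⟨_, Or.inr rfl, h⟩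

theorem inner_eq_card (E : List (ℕ × ℕ)) (S : Finset ℕ) : inner E S =
    ((Finset.range E.length).filter (fun i => (E.getD i (0, 0)).1 ∈ S ∧
      (E.getD i (0, 0)).2 ∈ S)).card := by
  rw [← countP_range]
  unfold inner
  induction E with
  | nil => simp
  | cons e E ih =>
    rw [List.countP_cons, List.length_cons, List.range_succ_eq_map, List.countP_cons,
      List.countP_map, ih]
    congr 1

/-- the assignment of a vertex set -/
def asgOf (N : ℕ) (E : List (ℕ × ℕ)) (S : Finset ℕ) (v : ℕ) : Finset ℕ :=
  if v < E.length then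
    (if (E.getD v (0, 0)).1 ∈ S ∧ (E.getD v (0, 0)).2 ∈ S then {1} else {0, 1})
  else if v < E.length + N then {0} else {1}

theorem asgOf_mistakes (N W b : ℕ) (E : List (ℕ × ℕ)) (S : Finset ℕ) (hW : 0 < W) :
    mistakes (inst N W b E) (asgOf N E S) ≤ S.card := by
  rw [mistakes_inst]
  have h1 : ((Finset.range (E.length * W)).filter (fun t => 1 ∉ asgOf N E S (t / W) ∨
        1 ∉ asgOf N E S (E.length + N + t))) = ∅ := by
    rw [Finset.filter_eq_empty_iff]
    intro t ht
    rw [Finset.mem_range] at ht
    have h1 : t / W < E.length := (Nat.div_lt_iff_lt_mul hW).2 ht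
    have h2 : ¬ (E.length + N + t < E.length) := by omega
    have h3 : ¬ (E.length + N + t < E.length + N) := by omega
    have h4 : 1 ∈ asgOf N E S (t / W) := by
      unfold asgOf
      rw [if_pos h1]
      split_ifs <;> simp
    have h5 : 1 ∈ asgOf N E S (E.length + N + t) := by
      unfold asgOf
      rw [if_neg h2, if_neg h3]
      simp
    simp [h4, h5]
  rw [h1, Finset.card_empty, add_zero]
  apply Finset.card_le_card
  intro x hx
  rw [Finset.mem_filter, Finset.mem_range] at hx
  obtain ⟨hx, h | ⟨i, hi, h2, h3⟩⟩ := hx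
  · exfalso
    apply h
    unfold asgOf
    rw [if_neg (by omega), if_pos (by omega)]
    simp
  · unfold asgOf at h3
    rw [if_pos hi] at h3
    split_ifs at h3 with h4
    · simp only [inc, decide_eq_true_eq] at h2
      rcases h2 with h2 | h2
      · rw [← h2]; exact h4.1
      · rw [← h2]; exact h4.2
    · simp at h3

theorem asgOf_cases (N : ℕ) (E : List (ℕ × ℕ)) (S : Finset ℕ) (v : ℕ) :
    (asgOf N E S v).card = 1 ∧ asgOf N E S v ⊆ Finset.range 2 ∧
        ¬ (v < E.length ∧ ¬ ((E.getD v (0, 0)).1 ∈ S ∧ (E.getD v (0, 0)).2 ∈ S)) ∨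
      asgOf N E S v = Finset.range 2 ∧
        (v < E.length ∧ ¬ ((E.getD v (0, 0)).1 ∈ S ∧ (E.getD v (0, 0)).2 ∈ S)) := by
  unfold asgOf
  by_cases h1 : v < E.length
  · rw [if_pos h1]
    by_cases h2 : (E.getD v (0, 0)).1 ∈ S ∧ (E.getD v (0, 0)).2 ∈ S
    · rw [if_pos h2]
      left
      exact ⟨by simp, by simp, fun h => h.2 h2⟩
    · rw [if_neg h2]
      right
      exact ⟨by decide, h1, h2⟩
  · rw [if_neg h1]
    left
    refine ⟨?_, ?_, fun h => h1 h.1⟩
    · split_ifs <;> simp
    · split_ifs <;> simp

theorem bad_card {N W b : ℕ} {E : List (ℕ × ℕ)} {S : Finset ℕ}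
    (h : E.length ≤ inner E S + b) :
    ((Finset.range (nodes (inst N W b E))).filter (fun v => v < E.length ∧
      ¬ ((E.getD v (0, 0)).1 ∈ S ∧ (E.getD v (0, 0)).2 ∈ S))).card ≤ b := by
  have h1 : (Finset.range (nodes (inst N W b E))).filter (fun v => v < E.length ∧
      ¬ ((E.getD v (0, 0)).1 ∈ S ∧ (E.getD v (0, 0)).2 ∈ S)) =
      (Finset.range E.length).filter (fun v =>
        ¬ ((E.getD v (0, 0)).1 ∈ S ∧ (E.getD v (0, 0)).2 ∈ S)) := by
    ext v
    simp only [Finset.mem_filter, Finset.mem_range, nodes, inst]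
    constructor
    · rintro ⟨_, h1, h2⟩; exact ⟨h1, h2⟩
    · rintro ⟨h1, h2⟩; exact ⟨by omega, h1, h2⟩
  rw [h1]
  have h2 := Finset.card_filter_add_card_filter_not (s := Finset.range E.length)
    (fun v => (E.getD v (0, 0)).1 ∈ S ∧ (E.getD v (0, 0)).2 ∈ S)
  rw [← inner_eq_card, Finset.card_range] at h2
  omega

theorem asgOf_global {N W b : ℕ} {E : List (ℕ × ℕ)} {S : Finset ℕ}
    (h : E.length ≤ inner E S + b) : GlobalFeasible (inst N W b E) (asgOf N E S) := by
  constructor
  · intro v _
    rcases asgOf_cases N E S v with ⟨h1, h2, _⟩ | ⟨h1, _⟩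
    · exact ⟨Finset.card_pos.1 (by omega), h2⟩
    · rw [h1]
      exact ⟨by simp, le_rfl⟩
  · refine le_trans (le_of_eq ?_) (bad_card (N := N) (W := W) h)
    rw [Finset.card_filter]
    apply Finset.sum_congr rfl
    intro v _
    rcases asgOf_cases N E S v with ⟨h1, _, h2⟩ | ⟨h1, h2⟩
    · rw [if_neg h2, h1]
    · rw [if_pos h2, h1]
      simp

theorem asgOf_robust {N W b : ℕ} {E : List (ℕ × ℕ)} {S : Finset ℕ}
    (h : E.length ≤ inner E S + b) : RobustFeasible (inst N W b E) (asgOf N E S) := by
  refine ⟨_, Finset.filter_subset _ _, bad_card h, ?_, ?_⟩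
  · intro v hv
    rw [Finset.mem_filter] at hv
    rcases asgOf_cases N E S v with ⟨_, _, h2⟩ | ⟨h1, _⟩
    · exact absurd hv.2 h2
    · exact h1
  · intro v hv hv'
    rw [Finset.mem_filter, Finset.mem_range] at hv'
    rcases asgOf_cases N E S v with ⟨h1, h2, _⟩ | ⟨_, h2⟩
    · exact ⟨h1, h2⟩
    · exact absurd ⟨hv, h2⟩ hv'

/-- what is used of a feasible assignment -/
def Thin (I : Inst) (S : ℕ → Finset ℕ) : Prop :=
  ((Finset.range (nodes I)).filter (fun v => 0 ∈ S v ∧ 1 ∈ S v)).card ≤ budget I

theorem GlobalFeasible.thin {I : Inst} {S : ℕ → Finset ℕ} (h : GlobalFeasible I S) :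
    Thin I S := by
  refine le_trans ?_ h.2
  rw [Finset.card_filter]
  apply Finset.sum_le_sum
  intro v _
  split_ifs with h1
  · have h2 : ({0, 1} : Finset ℕ) ⊆ S v := by
      intro c hc
      simp only [Finset.mem_insert, Finset.mem_singleton] at hc
      rcases hc with rfl | rfl
      · exact h1.1
      · exact h1.2
    have h3 := Finset.card_le_card h2
    simp only [Finset.card_insert_of_notMem (show (0 : ℕ) ∉ ({1} : Finset ℕ) by simp),
      Finset.card_singleton] at h3
    omega
  · exact Nat.zero_le _

theorem RobustFeasible.thin {I : Inst} {S : ℕ → Finset ℕ} (h : RobustFeasible I S) :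
    Thin I S := by
  obtain ⟨D, _, hD2, _, hD4⟩ := h
  refine le_trans (Finset.card_le_card ?_) hD2
  intro v hv
  rw [Finset.mem_filter, Finset.mem_range] at hv
  by_contra hvD
  have h1 := (hD4 v hv.1 hvD).1
  obtain ⟨c, hc⟩ := Finset.card_eq_one.1 h1
  rw [hc] at hv
  simp only [Finset.mem_singleton] at hv
  omega

/-- From an assignment with few mistakes one gets a small set with many edges. -/
theorem exists_set {N W b : ℕ} {E : List (ℕ × ℕ)} (hE : ∀ e ∈ E, e.1 < N ∧ e.2 < N)
    {S : ℕ → Finset ℕ} (hS : Thin (inst N W b E) S) (hm : mistakes (inst N W b E) S < W) :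
    ∃ T ⊆ Finset.range N, T.card ≤ mistakes (inst N W b E) S ∧ E.length ≤ inner E T + b := by
  rw [mistakes_inst] at hm
  have hW : 0 < W := by omega
  have h1 : ∀ i < E.length, 1 ∈ S i := by
    intro i hi
    by_contra hc
    have h2 : ((Finset.range W).image (fun j => i * W + j)) ⊆
        (Finset.range (E.length * W)).filter (fun t => 1 ∉ S (t / W) ∨
          1 ∉ S (E.length + N + t)) := by
      intro t ht
      rw [Finset.mem_image] at ht
      obtain ⟨j, hj, rfl⟩ := ht
      rw [Finset.mem_range] at hj
      rw [Finset.mem_filter, Finset.mem_range]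
      constructor
      · calc i * W + j < i * W + W := by omega
          _ = (i + 1) * W := by ring
          _ ≤ E.length * W := Nat.mul_le_mul_right _ hi
      · left
        have : (i * W + j) / W = i := by
          rw [mul_comm, Nat.mul_add_div hW, Nat.div_eq_of_lt hj, add_zero]
        rw [this]
        exact hc
    have h3 := Finset.card_le_card h2
    rw [Finset.card_image_of_injective _ (fun a b h => by simpa using h),
      Finset.card_range] at h3
    omega
  refine ⟨(Finset.range N).filter (fun x => 0 ∉ S (E.length + x) ∨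
        ∃ i < E.length, inc E i x = true ∧ 0 ∉ S i), Finset.filter_subset _ _, ?_, ?_⟩
  · rw [mistakes_inst]; omega
  · have h2 := Finset.card_filter_add_card_filter_not (s := Finset.range E.length)
      (fun v => 0 ∈ S v)
    rw [Finset.card_range] at h2
    have h3 : ((Finset.range E.length).filter (fun v => 0 ∈ S v)).card ≤ b := by
      refine le_trans (Finset.card_le_card ?_) hS
      intro v hv
      rw [Finset.mem_filter, Finset.mem_range] at hv ⊢
      refine ⟨?_, hv.2, h1 v hv.1⟩
      simp only [nodes, inst]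
      omega
    have h4 : ((Finset.range E.length).filter (fun v => ¬ 0 ∈ S v)).card ≤ inner E
        ((Finset.range N).filter (fun x => 0 ∉ S (E.length + x) ∨
        ∃ i < E.length, inc E i x = true ∧ 0 ∉ S i)) := by
      rw [inner_eq_card]
      apply Finset.card_le_card
      intro v hv
      rw [Finset.mem_filter, Finset.mem_range] at hv
      rw [Finset.mem_filter, Finset.mem_range, Finset.mem_filter, Finset.mem_filter,
        Finset.mem_range, Finset.mem_range]
      have hmem : E.getD v (0, 0) ∈ E := by
        rw [List.getD_eq_getElem _ _ hv.1]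
        exact List.getElem_mem _
      refine ⟨hv.1, ⟨(hE _ hmem).1, Or.inr ⟨v, hv.1, ?_, hv.2⟩⟩, (hE _ hmem).2,
        Or.inr ⟨v, hv.1, ?_, hv.2⟩⟩ <;> simp [inc]
    omega

end Pool.Agent.H801.Ecc
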