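import Pool.Agent.NPC.Defs
import Mathlib

/-!
# Budgeted overlapping edge-coloured clustering, and small set expansion
-/

namespace Pool.Agent.H801.Ecc

open Pool.Agent.NPC

/-- An instance of budgeted edge-coloured clustering: the number of nodes (the nodes are
`0, 1, …`), the number of colours (the colours are `0, 1, …`), the list of hyperedges, each given
by its colour and the list of its nodes, and the budget. -/
abbrev Inst : Type := ℕ × ℕ × List (ℕ × List ℕ) × ℕ

/-- the number of nodes -/
def nodes (I : Inst) : ℕ := I.1

/-- the number of colours -/
def colours (I : Inst) : ℕ := I.2.1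

/-- the hyperedges, with their colours -/
def hedges (I : Inst) : List (ℕ × List ℕ) := I.2.2.1

/-- the budget -/
def budget (I : Inst) : ℕ := I.2.2.2

/-- Well-formed instances: there is a colour, the hyperedges are nonempty duplicate-free lists of
nodes with legal colours, no two hyperedges have the same set of nodes, and every node lies in some
hyperedge (so that the number of nodes is at most the length of the instance). -/
def WF (I : Inst) : Prop :=
  1 ≤ colours I ∧
  (∀ e ∈ hedges I, e.1 < colours I ∧ e.2 ≠ [] ∧ e.2.Nodup ∧ ∀ v ∈ e.2, v < nodes I) ∧
  (hedges I).Pairwise (fun e f => e.2.toFinset ≠ f.2.toFinset) ∧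
  ∀ v < nodes I, ∃ e ∈ hedges I, v ∈ e.2

/-- The number of mistakes of an assignment `S` of colour sets to the nodes: the hyperedges with a
node whose colour set misses the colour of the hyperedge. -/
def mistakes (I : Inst) (S : ℕ → Finset ℕ) : ℕ :=
  (hedges I).countP (fun e => decide (∃ v ∈ e.2, e.1 ∉ S v))

/-- Feasibility for GlobalECC: every node has a nonempty set of colours, and in total at most
`budget` extra colours are used. -/
def GlobalFeasible (I : Inst) (S : ℕ → Finset ℕ) : Prop :=
  (∀ v < nodes I, (S v).Nonempty ∧ S v ⊆ Finset.range (colours I)) ∧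
  ∑ v ∈ Finset.range (nodes I), ((S v).card - 1) ≤ budget I

/-- Feasibility for RobustECC: every node has exactly one colour, except that at most `budget`
nodes have all colours. -/
def RobustFeasible (I : Inst) (S : ℕ → Finset ℕ) : Prop :=
  ∃ D : Finset ℕ, D ⊆ Finset.range (nodes I) ∧ D.card ≤ budget I ∧
    (∀ v ∈ D, S v = Finset.range (colours I)) ∧
    ∀ v < nodes I, v ∉ D → (S v).card = 1 ∧ S v ⊆ Finset.range (colours I)

/-- The assignment described by a list of lists of colours: the node `v` gets the colours of the
`v`-th list. -/
def asg (L : List (List ℕ)) (v : ℕ) : Finset ℕ := (L.getD v []).toFinset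

/-- The function `F` on bit strings is an `α`-approximation for the minimum number of mistakes of
an assignment that is feasible in the sense of `Feas`, on the well-formed instances with exactly
two colours: it outputs a feasible assignment with at most `α` times as many mistakes as any other
feasible assignment. -/
def Approx2 (Feas : Inst → (ℕ → Finset ℕ) → Prop) (α : ℝ) (F : List Bool → List Bool) : Prop :=
  ∀ I : Inst, WF I → colours I = 2 → ∃ L : List (List ℕ), F (bits I) = bits L ∧
    Feas I (asg L) ∧ ∀ S, Feas I S → (mistakes I (asg L) : ℝ) ≤ α * mistakes I S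

/-- `E` is the edge list of a `d`-regular loopless multigraph on the vertices `0, …, N - 1`. -/
def Regular (N : ℕ) (E : List (ℕ × ℕ)) (d : ℕ) : Prop :=
  (∀ e ∈ E, e.1 < N ∧ e.2 < N ∧ e.1 ≠ e.2) ∧
  ∀ x < N, E.countP (fun e => decide (e.1 = x ∨ e.2 = x)) = d

/-- The number of edges leaving a vertex set. -/
def cut (E : List (ℕ × ℕ)) (S : Finset ℕ) : ℕ :=
  E.countP (fun e => decide (¬ (e.1 ∈ S ↔ e.2 ∈ S)))

/-- The gap problem for small set expansion with parameters `η` and `δ` is solvable in polynomial
time: a polynomial-time algorithm answers `true` on the regular graphs having a vertex set of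
measure `δ` and expansion at most `η`, and `false` on the regular graphs all of whose vertex sets
of measure `δ` have expansion at least `1 - η`.  (The input consists of the graph with `N` vertices
and of the number `s = δ N`; the expansion of a set of `s` vertices of a `d`-regular graph is the
number of edges leaving it divided by `d s`.) -/
def SSEInP (η δ : ℝ) : Prop :=
  ∃ G : List Bool → List Bool, PolyTime G ∧
    ∀ (N : ℕ) (E : List (ℕ × ℕ)) (d s : ℕ), 1 ≤ d → 1 ≤ s → Regular N E d → (s : ℝ) = δ * N →
      ((∃ S ⊆ Finset.range N, S.card = s ∧ (cut E S : ℝ) ≤ η * (d * s)) →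
        G (bits (N, E, s)) = [true]) ∧
      ((∀ S ⊆ Finset.range N, S.card = s → (1 - η) * (d * s) ≤ (cut E S : ℝ)) →
        G (bits (N, E, s)) = [false])

/-- The small set expansion hypothesis, in its polynomial-time form: for every `η > 0` there is a
`δ > 0` such that the gap problem with parameters `η` and `δ` is not solvable in polynomial
time. -/
def SSEH : Prop := ∀ η : ℝ, 0 < η → ∃ δ : ℝ, 0 < δ ∧ ¬ SSEInP η δ

end Pool.Agent.H801.Ecc
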